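import Mathlib
import Pool.Agent.Q182.BODefs
import Pool.Agent.Q182.BOFinal

/-!
# MP_6f07cb_gt, Q1: an order-preserving braid all of whose Burau eigenvalues are negative

The braid `β = (σ₁ σ₂⁻¹)³` on three strands is order-preserving, and every root of the
characteristic polynomial of its reduced Burau matrix in the field of Puiseux series (even in the
field of all Hahn series `ℝ((t^ℚ))`) is negative. So the answer to the question is no.
-/

namespace Pool.Agent.Results.MP_6f07cb_gt.PureNegative

open Q182.BO LaurentPolynomial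

theorem result :
    ∃ β ∈ BraidGroup 2, β = (artin 2 0 * (artin 2 1)⁻¹) ^ 3 ∧ OrderPreserving β ∧
      ∃ R : Matrix (Fin 2) (Fin 2) ℤ[T;T⁻¹], IsBurauMatrix 2 β R ∧
        (∀ a : HahnSeries ℚ ℝ, IsEigenvalue R a → a.leadingCoeff < 0) ∧
        ∀ a : HahnSeries ℚ ℝ, IsPuiseux a → IsEigenvalue R a → a.leadingCoeff < 0 := by
  refine ⟨beta, ?_, rfl, beta_order, PP ^ 3, BM_beta.isBurau, fun a ha => root_neg ha,
    fun a _ ha => root_neg ha⟩
  unfold beta BraidGroup
  exact Subgroup.pow_mem _ (Subgroup.mul_mem _ (Subgroup.subset_closure (Set.mem_range_self 0))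
    (Subgroup.inv_mem _ (Subgroup.subset_closure (Set.mem_range_self 1)))) 3

end Pool.Agent.Results.MP_6f07cb_gt.PureNegative
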